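import Pool.Agent.VWar.FinPq
import Pool.Agent.FWar.ResS
import Pool.Agent.FWar.ResP

/-!
# VWar.ResPq: one generic coefficient of `x ^ (k - 1)`, and `d ≥ 1` generic coefficients
-/

namespace VWar

open MWg FWar MeasureTheory Filter Topology

theorem dim_allAq {k q : ℕ} (hk : 2 ≤ k) (hq : (1 - 1 / (k : ℝ)) ^ (q + 1) ≤ 1 / 2) :
    ∃ d : ℝ, d < 1 ∧ ∀ (α : ℝ) (g : Polynomial ℝ), 0 < α → g.natDegree < k →
    dimH {t : ℝ | ¬ ∀ A : ℕ, 1 ≤ A → FloorP (fun x => (A : ℝ) * (α * (x : ℝ) ^ k + g.eval (x : ℝ) +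
      t * (x : ℝ) ^ (k - 1))) (4 * q + 7)} ≤ ENNReal.ofReal d := by
  obtain ⟨d, hd, h⟩ := floor_polyq hk hq
  refine ⟨d, hd, fun α g hα hg => ?_⟩
  have h1 : {t : ℝ | ¬ ∀ A : ℕ, 1 ≤ A → FloorP (fun x => (A : ℝ) * (α * (x : ℝ) ^ k +
      g.eval (x : ℝ) + t * (x : ℝ) ^ (k - 1))) (4 * q + 7)} ⊆ ⋃ A : ℕ,
      {t : ℝ | ((A + 1 : ℕ) : ℝ) * t ∈ {t' : ℝ | ¬ FloorP (fun x => ((A + 1 : ℕ) * α) * (x : ℝ) ^ k +
        (Polynomial.C ((A + 1 : ℕ) : ℝ) * g).eval (x : ℝ) + t' * (x : ℝ) ^ (k - 1)) (4 * q + 7)}} := by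
    intro t ht
    simp only [Set.mem_ofPred_eq, not_forall] at ht
    obtain ⟨A, hA, h2⟩ := ht
    rw [Set.mem_iUnion]
    refine ⟨A - 1, ?_⟩
    simp only [Set.mem_ofPred_eq]
    have h3 : A - 1 + 1 = A := by omega
    rw [h3]
    have h4 : (fun x : ℕ => ((A : ℝ) * α) * (x : ℝ) ^ k +
        (Polynomial.C (A : ℝ) * g).eval (x : ℝ) + (A : ℝ) * t * (x : ℝ) ^ (k - 1)) =
        fun x : ℕ => (A : ℝ) * (α * (x : ℝ) ^ k + g.eval (x : ℝ) + t * (x : ℝ) ^ (k - 1)) := by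
      funext x
      simp only [Polynomial.eval_mul, Polynomial.eval_C]
      ring
    rw [h4]
    exact h2
  refine (dimH_mono h1).trans ?_
  rw [dimH_iUnion]
  refine iSup_le fun A => ?_
  refine (dim_scale (A + 1) (by omega) _).trans ?_
  refine h _ _ (by positivity) ?_
  exact lt_of_le_of_lt (Polynomial.natDegree_C_mul_le _ _) hg

/-- The two numbers of terms together. -/
theorem dim_both {k : ℕ} (hk : 2 ≤ k) : ∃ q : ℕ, ((4 * q + 7 : ℕ) : ℝ) < 4 * Real.log 2 * k + 7 ∧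
    ∃ d : ℝ, d < 1 ∧ ∀ (α : ℝ) (g : Polynomial ℝ), 0 < α → g.natDegree < k →
    dimH {t : ℝ | ¬ ∀ A : ℕ, 1 ≤ A →
      FloorP (fun x => (A : ℝ) * (α * (x : ℝ) ^ k + g.eval (x : ℝ) +
        t * (x : ℝ) ^ (k - 1))) (4 * k - 1) ∧
      FloorP (fun x => (A : ℝ) * (α * (x : ℝ) ^ k + g.eval (x : ℝ) +
        t * (x : ℝ) ^ (k - 1))) (4 * q + 7)} ≤ ENNReal.ofReal d := by
  obtain ⟨q, hq, hq7⟩ := ResS_log_bound hk
  obtain ⟨d1, hd1, h1⟩ := dim_allA hk
  obtain ⟨d2, hd2, h2⟩ := dim_allAq hk hq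
  refine ⟨q, hq7, max d1 d2, max_lt hd1 hd2, fun α g hα hg => ?_⟩
  have hsub : {t : ℝ | ¬ ∀ A : ℕ, 1 ≤ A →
      FloorP (fun x => (A : ℝ) * (α * (x : ℝ) ^ k + g.eval (x : ℝ) +
        t * (x : ℝ) ^ (k - 1))) (4 * k - 1) ∧
      FloorP (fun x => (A : ℝ) * (α * (x : ℝ) ^ k + g.eval (x : ℝ) +
        t * (x : ℝ) ^ (k - 1))) (4 * q + 7)} ⊆
      {t : ℝ | ¬ ∀ A : ℕ, 1 ≤ A → FloorP (fun x => (A : ℝ) * (α * (x : ℝ) ^ k + g.eval (x : ℝ) +
        t * (x : ℝ) ^ (k - 1))) (4 * k - 1)} ∪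
      {t : ℝ | ¬ ∀ A : ℕ, 1 ≤ A → FloorP (fun x => (A : ℝ) * (α * (x : ℝ) ^ k + g.eval (x : ℝ) +
        t * (x : ℝ) ^ (k - 1))) (4 * q + 7)} := by
    intro t ht
    rw [Set.mem_union]
    by_contra hcon
    rw [not_or] at hcon
    obtain ⟨ha, hc⟩ := hcon
    simp only [Set.mem_ofPred_eq, not_not] at ha hc
    exact ht fun A hA => ⟨ha A hA, hc A hA⟩
  refine (dimH_mono hsub).trans ?_
  rw [dimH_union]
  exact max_le ((h1 α g hα hg).trans (ENNReal.ofReal_le_ofReal (le_max_left _ _)))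
    ((h2 α g hα hg).trans (ENNReal.ofReal_le_ofReal (le_max_right _ _)))

/-- From integer parts of multiples to representations. -/
theorem rep_both {k q : ℕ} (hq7 : ((4 * q + 7 : ℕ) : ℝ) < 4 * Real.log 2 * k + 7) {f : ℕ → ℝ}
    (h : ∀ A : ℕ, 1 ≤ A → FloorP (fun x => (A : ℝ) * f x) (4 * k - 1) ∧
      FloorP (fun x => (A : ℝ) * f x) (4 * q + 7)) {m : ℕ}
    (hm : 4 * k - 1 ≤ m ∨ 4 * Real.log 2 * k + 7 ≤ (m : ℝ)) : Rep f m := by
  apply rep_of
  intro A hA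
  rcases hm with hm | hm
  · exact floor_longer hm (h A hA).1
  · refine floor_longer ?_ (h A hA).2
    have : ((4 * q + 7 : ℕ) : ℝ) < (m : ℝ) := lt_of_lt_of_le hq7 hm
    exact_mod_cast this.le

/-- One generic coefficient: the exceptional set has dimension less than one. -/
theorem res_one_dim {k : ℕ} (hk : 2 ≤ k) : ∃ d : ℝ, d < 1 ∧ ∀ (α : ℝ) (g : Polynomial ℝ), 0 < α →
    g.natDegree < k →
    dimH {t : ℝ | ¬ ∀ m : ℕ, (4 * k - 1 ≤ m ∨ 4 * Real.log 2 * k + 7 ≤ (m : ℝ)) →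
      Rep (fun x => α * (x : ℝ) ^ k + g.eval (x : ℝ) + t * (x : ℝ) ^ (k - 1)) m} ≤
      ENNReal.ofReal d := by
  obtain ⟨q, hq7, d, hd, h⟩ := dim_both hk
  refine ⟨d, hd, fun α g hα hg => (dimH_mono ?_).trans (h α g hα hg)⟩
  intro t ht h1
  exact ht fun m hm => rep_both hq7 h1 hm

theorem measurable_fs {ι : Type*} [MeasurableSpace ι] {F : ι → ℕ → ℝ}
    (hF : ∀ x, Measurable fun t => F t x) (l : List ℕ) : Measurable fun t => fs (F t) l := by
  induction l with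
  | nil => simp [fs]
  | cons a l ih =>
    have : (fun t => fs (F t) (a :: l)) = fun t => ⌊F t a⌋ + fs (F t) l := by
      funext t
      simp [fs]
    rw [this]
    exact Measurable.add (Int.measurable_floor.comp (hF a)) ih

theorem measurableSet_floor {ι : Type*} [MeasurableSpace ι] {F : ι → ℕ → ℝ}
    (hF : ∀ x, Measurable fun t => F t x) (s : ℕ) : MeasurableSet {t | FloorP (F t) s} := by
  have h2 : {t | FloorP (F t) s} =
      ⋃ N0 : ℤ, ⋂ N : ℤ, ⋂ _ : N0 ≤ N, ⋃ l : List ℕ, ⋃ _ : l.length = s ∧ ∀ n ∈ l, 1 ≤ n,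
        {t | fs (F t) l = N} := by
    ext c
    simp [FloorP, and_assoc]
  rw [h2]
  refine MeasurableSet.iUnion fun N0 => MeasurableSet.iInter fun N => MeasurableSet.iInter fun _ =>
    MeasurableSet.iUnion fun l => MeasurableSet.iUnion fun _ => ?_
  exact measurable_fs hF l (measurableSet_singleton N)

theorem ae_floor_cons {n : ℕ} (F : (Fin (n + 1) → ℝ) → ℕ → ℝ) (s : ℕ)
    (hF : ∀ x, Measurable fun t => F t x)
    (H : ∀ c : Fin n → ℝ, ∀ᵐ t : ℝ, FloorP (F (Fin.cons (α := fun _ => ℝ) t c)) s) :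
    ∀ᵐ c : Fin (n + 1) → ℝ, FloorP (F c) s := by
  have hm := measurableSet_floor hF s
  have mp := volume_preserving_piFinSuccAbove (fun _ : Fin (n + 1) => ℝ) 0
  set e := MeasurableEquiv.piFinSuccAbove (fun _ : Fin (n + 1) => ℝ) 0 with he
  have key : ∀ᵐ p : ℝ × (Fin n → ℝ), FloorP (F (e.symm p)) s := by
    have hs : MeasurableSet {p : ℝ × (Fin n → ℝ) | ¬ FloorP (F (e.symm p)) s} :=
      (e.symm.measurable hm.compl)
    rw [ae_iff]
    have hsw : (volume : Measure (ℝ × (Fin n → ℝ))) {p | ¬ FloorP (F (e.symm p)) s} =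
        ((volume : Measure (Fin n → ℝ)).prod (volume : Measure ℝ))
          (Prod.swap ⁻¹' {p : ℝ × (Fin n → ℝ) | ¬ FloorP (F (e.symm p)) s}) := by
      have h3 := Measure.measurePreserving_swap (μ := (volume : Measure (Fin n → ℝ)))
        (ν := (volume : Measure ℝ))
      rw [h3.measure_preimage hs.nullMeasurableSet]
      rfl
    rw [hsw, Measure.measure_prod_null (measurable_swap hs)]
    refine Filter.Eventually.of_forall fun c => ?_
    have := H c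
    rw [ae_iff] at this
    change (volume : Measure ℝ) (Prod.mk c ⁻¹'
      (Prod.swap ⁻¹' {p : ℝ × (Fin n → ℝ) | ¬ FloorP (F (e.symm p)) s})) = 0
    convert this using 2
    ext t
    have h5 : e.symm (t, c) = Fin.cons (α := fun _ => ℝ) t c := by
      have : e.symm (t, c) = (0 : Fin (n + 1)).insertNth (α := fun _ => ℝ) t c := rfl
      rw [this, Fin.insertNth_zero']
    change ¬ FloorP (F (e.symm (t, c))) s ↔ ¬ FloorP (F (Fin.cons t c)) s
    rw [h5]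
  have h4 := mp.quasiMeasurePreserving.ae key
  filter_upwards [h4] with c hc
  simpa using hc

/-- `d ≥ 1` generic coefficients. -/
theorem res_d_ae {k d : ℕ} (hk : 2 ≤ k) (hd : 1 ≤ d) (hdk : d ≤ k) {g : Polynomial ℝ}
    (hg : g.natDegree < k) :
    ∀ᵐ t : Fin d → ℝ, ∀ m : ℕ, (4 * k - 1 ≤ m ∨ 4 * Real.log 2 * k + 7 ≤ (m : ℝ)) →
      Rep (fun x => (x : ℝ) ^ k + g.eval (x : ℝ) +
        ∑ i : Fin d, t i * (x : ℝ) ^ (k - 1 - (i : ℕ))) m := by
  obtain ⟨n, rfl⟩ : ∃ n, d = n + 1 := ⟨d - 1, by omega⟩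
  obtain ⟨q, hq7, e, he, h⟩ := dim_both hk
  have key : ∀ s : ℕ, (s = 4 * k - 1 ∨ s = 4 * q + 7) → ∀ A : ℕ, 1 ≤ A →
      ∀ᵐ t : Fin (n + 1) → ℝ, FloorP (fun x => (A : ℝ) * ((x : ℝ) ^ k + g.eval (x : ℝ) +
        ∑ i : Fin (n + 1), t i * (x : ℝ) ^ (k - 1 - (i : ℕ)))) s := by
    intro s hs A hA
    refine ae_floor_cons (fun (t : Fin (n + 1) → ℝ) (x : ℕ) => (A : ℝ) * ((x : ℝ) ^ k +
      g.eval (x : ℝ) + ∑ i : Fin (n + 1), t i * (x : ℝ) ^ (k - 1 - (i : ℕ)))) s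
      (fun x => by fun_prop) fun c => ?_
    set g' : Polynomial ℝ := g + ∑ m : Fin n, Polynomial.C (c m) *
      Polynomial.X ^ (k - 1 - ((m : ℕ) + 1)) with hg'
    have hgd : g'.natDegree < k := by
      refine lt_of_le_of_lt (Polynomial.natDegree_add_le _ _) (max_lt hg ?_)
      have : (∑ m : Fin n, Polynomial.C (c m) *
          Polynomial.X ^ (k - 1 - ((m : ℕ) + 1))).natDegree ≤ k - 1 := by
        apply Polynomial.natDegree_sum_le_of_forall_le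
        intro m _
        refine (Polynomial.natDegree_C_mul_X_pow_le _ _).trans ?_
        omega
      omega
    have h2 := h 1 g' one_pos hgd
    have h3 : volume {t : ℝ | ¬ ∀ A : ℕ, 1 ≤ A →
      FloorP (fun x => (A : ℝ) * ((1 : ℝ) * (x : ℝ) ^ k + g'.eval (x : ℝ) +
        t * (x : ℝ) ^ (k - 1))) (4 * k - 1) ∧
      FloorP (fun x => (A : ℝ) * ((1 : ℝ) * (x : ℝ) ^ k + g'.eval (x : ℝ) +
        t * (x : ℝ) ^ (k - 1))) (4 * q + 7)} = 0 := by
      apply null_of_dimH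
      refine lt_of_le_of_lt h2 ?_
      rw [← ENNReal.ofReal_one]
      exact (ENNReal.ofReal_lt_ofReal_iff one_pos).2 he
    rw [ae_iff]
    refine measure_mono_null ?_ h3
    intro t ht
    simp only [Set.mem_ofPred_eq] at ht ⊢
    intro h4
    apply ht
    have h5 : (fun x : ℕ => (A : ℝ) * ((x : ℝ) ^ k + g.eval (x : ℝ) +
        ∑ i : Fin (n + 1), (Fin.cons (α := fun _ => ℝ) t c : Fin (n + 1) → ℝ) i *
          (x : ℝ) ^ (k - 1 - (i : ℕ)))) =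
        fun x : ℕ => (A : ℝ) * ((1 : ℝ) * (x : ℝ) ^ k + g'.eval (x : ℝ) +
          t * (x : ℝ) ^ (k - 1)) := by
      funext x
      rw [Fin.sum_univ_succ]
      simp only [Fin.cons_zero, Fin.cons_succ, Fin.val_zero, Fin.val_succ, Nat.sub_zero, hg',
        Polynomial.eval_add, Polynomial.eval_finsetSum, Polynomial.eval_mul, Polynomial.eval_C,
        Polynomial.eval_pow, Polynomial.eval_X]
      ring
    rw [h5]
    rcases hs with hs | hs
    · rw [hs]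
      exact (h4 A hA).1
    · rw [hs]
      exact (h4 A hA).2
  have h2 : ∀ᵐ t : Fin (n + 1) → ℝ, ∀ A : ℕ, 1 ≤ A →
      FloorP (fun x => (A : ℝ) * ((x : ℝ) ^ k + g.eval (x : ℝ) +
        ∑ i : Fin (n + 1), t i * (x : ℝ) ^ (k - 1 - (i : ℕ)))) (4 * k - 1) ∧
      FloorP (fun x => (A : ℝ) * ((x : ℝ) ^ k + g.eval (x : ℝ) +
        ∑ i : Fin (n + 1), t i * (x : ℝ) ^ (k - 1 - (i : ℕ)))) (4 * q + 7) := by
    rw [ae_all_iff]
    intro A
    by_cases hA : 1 ≤ A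
    · filter_upwards [key _ (Or.inl rfl) A hA, key _ (Or.inr rfl) A hA] with c h1 h2 _
      exact ⟨h1, h2⟩
    · exact Filter.Eventually.of_forall fun c h => absurd h hA
  filter_upwards [h2] with t ht m hm
  exact rep_both hq7 ht hm

end VWar
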