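import Pool.Agent.FWar.MixP
import Pool.Agent.FWar.AvgN
import Pool.Agent.FWar.DimC

/-!
# VWar.DimPq: dimension of the set of coefficients with many near coincidences, `q` pairs of letters

A copy of `Pool/Agent/FWar/DimP.lean` with a general number `q` of pairs of letters,
`(1 - 1/k)^q ≤ 1/2`, in place of `k - 1`.

The same as `FWar.AeP` with `dim_of_avg` instead of `ae_of_avg` (adapt `Pool/Agent/FWar/AeP.lean`; its
private lemmas may be copied or made public).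

PROOF. The set is the union over natural `T, M ≥ 1` of its parts with `|t| ≤ T` and with this `M`
(monotone in `M`), and `dimH` of a countable union is the supremum (`dimH_iUnion`). For fixed `T, M`:
`P = XX r`, `W_r = mix (nxt k) 1 (k-1) P`, `m_r = |W_r|`, `S_r = W_r × W_r`,
`G (w,w') t = (rs f w - rs f w') + t (rs pw w - rs pw w')`, Lipschitz constant
`|Δb| ≤ C P^(k-1) ≤ P^k` for large `r`: `hLip` with `Λ = k`. As in the proof of `aeP`, with `M + 1` in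
place of `M`, for large `r`: `∑ vol {t ∈ [-T,T] : |G| ≤ M + 1} ≤ P^(ε/2) m_r²/P^k`. `dim_of_avg` with
`δ = ε/2` gives the bound `1 - (ε/2)/(2k) = 1 - ε/(4k)`.
-/

namespace VWar

open MWg FWar Finset MeasureTheory Filter Topology

private theorem tau_sq {k q : ℕ} (hk : 2 ≤ k)
    (hq : (1 - 1 / (k : ℝ)) ^ q ≤ 1 / 2) : ∃ C : ℝ, 1 ≤ C ∧ ∀ P : ℝ, 1 ≤ P →
    (((nxt k)^[q] P) ^ (k - 1)) ^ 2 ≤ C * P ^ (k - 1) := by
  obtain ⟨C, hC, h⟩ := nxt_iter_pow_le (show 1 ≤ k by omega) q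
  refine ⟨(max C 1) ^ 2, one_le_pow₀ (le_max_right _ _), fun P hP => ?_⟩
  obtain ⟨D, hD⟩ : ∃ D, D = max C 1 := ⟨_, rfl⟩
  have hD1 : 1 ≤ D := by rw [hD]; exact le_max_right _ _
  have hCD : C ≤ D := by rw [hD]; exact le_max_left _ _
  rw [← hD]
  have h1 := h P hP
  have hy1 : 1 ≤ (nxt k)^[q] P := nxt_iter_ge_one (by omega) q hP
  generalize (nxt k)^[q] P = y at h1 hy1 ⊢
  have hkR : (2 : ℝ) ≤ k := by exact_mod_cast hk
  have h2 : P ^ ((k : ℝ) * (1 - 1 / (k : ℝ)) ^ q) ≤ P ^ ((k : ℝ) * (1 / 2)) :=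
    Real.rpow_le_rpow_of_exponent_le hP
      (mul_le_mul_of_nonneg_left (hq) (by linarith))
  have h3 : (P ^ ((k : ℝ) * (1 / 2))) ^ 2 = P ^ k := by
    rw [← Real.rpow_natCast, ← Real.rpow_mul (by linarith)]
    rw [show (k : ℝ) * (1 / 2) * ((2 : ℕ) : ℝ) = ((k : ℕ) : ℝ) by push_cast; ring,
      Real.rpow_natCast]
  have h4 : y ^ k ≤ D * P ^ ((k : ℝ) * (1 / 2)) := by
    refine h1.trans ?_
    refine mul_le_mul hCD h2 (Real.rpow_nonneg (by linarith) _) (by linarith)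
  have h5 : (y ^ k) ^ 2 ≤ D ^ 2 * P ^ k := by
    calc (y ^ k) ^ 2 ≤ (D * P ^ ((k : ℝ) * (1 / 2))) ^ 2 :=
          pow_le_pow_left₀ (by positivity) h4 2
      _ = D ^ 2 * P ^ k := by rw [mul_pow, h3]
  have h6 : ((y ^ (k - 1)) ^ 2) ^ k ≤ (D ^ 2 * P ^ (k - 1)) ^ k := by
    calc ((y ^ (k - 1)) ^ 2) ^ k = ((y ^ k) ^ 2) ^ (k - 1) := by
          rw [← pow_mul, ← pow_mul, ← pow_mul, ← pow_mul]
          congr 1
          ring
      _ ≤ (D ^ 2 * P ^ k) ^ (k - 1) := pow_le_pow_left₀ (by positivity) h5 _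
      _ = (D ^ 2) ^ (k - 1) * (P ^ (k - 1)) ^ k := by
          rw [mul_pow, ← pow_mul P k (k - 1), ← pow_mul P (k - 1) k, mul_comm k (k - 1)]
      _ ≤ (D ^ 2) ^ k * (P ^ (k - 1)) ^ k :=
          mul_le_mul_of_nonneg_right
            (pow_le_pow_right₀ (one_le_pow₀ hD1) (by omega)) (by positivity)
      _ = _ := by rw [mul_pow]
  exact le_of_pow_le_pow_left₀ (by omega) (by positivity) h6

private theorem XX_rpow (r : ℕ) (δ : ℝ) : (XX r) ^ δ = ((2 : ℝ) ^ δ) ^ r := by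
  unfold XX
  rw [← Real.rpow_natCast, ← Real.rpow_natCast, ← Real.rpow_mul (by norm_num),
    ← Real.rpow_mul (by norm_num), mul_comm]

private theorem lin_le (C : ℝ) (hC : 0 < C) {δ : ℝ} (hδ : 0 < δ) :
    ∀ᶠ r : ℕ in atTop, C * ((r : ℝ) + 1) ≤ (XX r) ^ δ := by
  have hb : (1 : ℝ) < (2 : ℝ) ^ δ := Real.one_lt_rpow (by norm_num) hδ
  have h1 := tendsto_pow_const_div_const_pow_of_one_lt 1 hb
  have h2 : ∀ᶠ n : ℕ in atTop, (n : ℝ) ^ 1 / ((2 : ℝ) ^ δ) ^ n < 1 / (2 * C) :=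
    h1.eventually_lt_const (by positivity)
  filter_upwards [h2, eventually_ge_atTop 1] with r hr hr1
  rw [XX_rpow]
  have hr2 : (1 : ℝ) ≤ r := by exact_mod_cast hr1
  have hp : 0 < ((2 : ℝ) ^ δ) ^ r := by positivity
  rw [pow_one, div_lt_div_iff₀ hp (by positivity)] at hr
  nlinarith

private theorem one_le_XX (r : ℕ) : 1 ≤ XX r := by
  unfold XX
  exact one_le_pow₀ (by norm_num)

private theorem card_ev {k : ℕ} (hk : 2 ≤ k) (q : ℕ) : ∀ᶠ r : ℕ in atTop,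
    0 < ((mix (nxt k) 1 q (XX r)).card : ℝ) := by
  have h1 : ∀ᶠ r : ℕ in atTop, ∀ i ∈ Finset.range (q + 1), 16 ≤ (nxt k)^[i] (XX r) := by
    rw [Filter.eventually_all_finset]
    intro i _
    exact ((nxt_iter_tendsto hk i).comp XX_tendsto).eventually_ge_atTop 16
  filter_upwards [h1] with r hr
  exact mix_card_pos q (XX r) fun i hi => hr i (Finset.mem_range.2 (by omega))

private theorem avg_bound {k q : ℕ} (hk : 2 ≤ k)
    (hq : (1 - 1 / (k : ℝ)) ^ q ≤ 1 / 2) {f : ℕ → ℝ} (hf : Good k f) (T : ℝ)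
    (hT : 1 ≤ T) {δ : ℝ} (hδ : 0 < δ) :
    ∀ᶠ r : ℕ in atTop,
      ∑ i ∈ (mix (nxt k) 1 q (XX r)) ×ˢ (mix (nxt k) 1 q (XX r)),
        (volume {t | t ∈ Set.Icc (-T) T ∧
          |(rs f i.1 + t * rs (fun x => (x : ℝ) ^ (k - 1)) i.1) -
          (rs f i.2 + t * rs (fun x => (x : ℝ) ^ (k - 1)) i.2)| ≤ T}).toReal ≤
      (XX r) ^ δ * (((mix (nxt k) 1 q (XX r)).card : ℝ) ^ 2 / (XX r) ^ k) := by
  obtain ⟨C1, hC1, P1, hP1, hAB⟩ := mix_AB hk hf q
  obtain ⟨C2, hC2, P2, hP2, hpw⟩ := mix_pw_bound hk (k - 1) q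
  obtain ⟨C0, hC0, hτ⟩ := tau_sq hk hq
  obtain ⟨CL, hCL⟩ : ∃ CL, CL = max C0 (2 * C2) := ⟨_, rfl⟩
  have hCL0 : C0 ≤ CL := by rw [hCL]; exact le_max_left _ _
  have hCL2 : 2 * C2 ≤ CL := by rw [hCL]; exact le_max_right _ _
  have hCL1 : 1 ≤ CL := hC0.trans hCL0
  obtain ⟨c, hc⟩ := pow_unbounded_of_one_lt CL (show (1 : ℝ) < 2 by norm_num)
  obtain ⟨Z, hZ⟩ : ∃ Z : ℝ, Z = C1 * (4 * T + 2) ^ 2 := ⟨_, rfl⟩
  have hZ0 : 0 < Z := by rw [hZ]; positivity
  have hkR : (2 : ℝ) ≤ k := by exact_mod_cast hk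
  obtain ⟨C3, hC3⟩ : ∃ C3 : ℝ, C3 = Z * (2 * T * C0 + 8 * (k + c) * CL * T * (1 + 2 * T)) :=
    ⟨_, rfl⟩
  have hC3p : 0 < C3 := by
    rw [hC3]
    positivity
  filter_upwards [lin_le C3 hC3p hδ, XX_tendsto.eventually_ge_atTop P1,
    XX_tendsto.eventually_ge_atTop P2] with r hlin hr1 hr2
  have hP := one_le_XX r
  have hXk : XX r ^ k = 2 ^ (r * k) := by
    unfold XX
    rw [← pow_mul]
  generalize XX r = P at *
  obtain ⟨m, hm⟩ : ∃ m : ℝ, m = ((mix (nxt k) 1 q P).card : ℝ) := ⟨_, rfl⟩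
  have hm0 : 0 ≤ m := by rw [hm]; exact Nat.cast_nonneg _
  have hP0 : 0 < P := by linarith
  obtain ⟨τ, hτd⟩ : ∃ τ : ℝ, τ = ((nxt k)^[q] P) ^ (k - 1) := ⟨_, rfl⟩
  have hτ2 : τ ^ 2 ≤ C0 * P ^ (k - 1) := by rw [hτd]; exact hτ P hP
  obtain ⟨B0, hB0d⟩ : ∃ B0 : ℝ, B0 = max 1 τ := ⟨_, rfl⟩
  have hB01 : 1 ≤ B0 := by rw [hB0d]; exact le_max_left _ _
  have hB0τ : τ ≤ B0 := by rw [hB0d]; exact le_max_right _ _
  have hPk : 1 ≤ P ^ (k - 1) := one_le_pow₀ hP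
  have hB02 : B0 ^ 2 ≤ C0 * P ^ (k - 1) := by
    rcases le_total τ 1 with h | h
    · rw [hB0d, max_eq_left h]
      nlinarith
    · rw [hB0d, max_eq_right h]
      exact hτ2
  obtain ⟨L, hLd⟩ : ∃ L : ℝ, L = CL * P ^ (k - 1) := ⟨_, rfl⟩
  have hL0 : 0 < L := by rw [hLd]; positivity
  have hB0L : B0 ≤ L := by
    have h1 : B0 ≤ B0 ^ 2 := by nlinarith
    have h2 : C0 * P ^ (k - 1) ≤ CL * P ^ (k - 1) :=
      mul_le_mul_of_nonneg_right hCL0 (by positivity)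
    rw [hLd]
    linarith
  have hI : L ≤ 2 ^ (r * k + c) * B0 := by
    have h1 : P ^ (k - 1) ≤ P ^ k := pow_le_pow_right₀ hP (by omega)
    have h2 : L ≤ 2 ^ (r * k + c) := by
      rw [hLd, pow_add, ← hXk, mul_comm]
      exact mul_le_mul h1 hc.le (by linarith) (by positivity)
    have h3 : (0 : ℝ) < 2 ^ (r * k + c) := by positivity
    nlinarith
  obtain ⟨K, hKd⟩ : ∃ K : ℝ, K = Z * m ^ 2 / P ^ (2 * k - 1) := ⟨_, rfl⟩
  have hK0 : 0 ≤ K := by rw [hKd]; positivity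
  have hKP : K * P ^ (k - 1) = Z * (m ^ 2 / P ^ k) := by
    have e1 : P ^ (2 * k - 1) = P ^ (k - 1) * P ^ k := by
      rw [← pow_add]
      congr 1
      omega
    rw [hKd, e1]
    field_simp
  have key := avg_nl (ι := List ℕ × List ℕ)
    (S := (mix (nxt k) 1 q P) ×ˢ (mix (nxt k) 1 q P))
    (G := fun i t => (rs f i.1 + t * rs (fun x => (x : ℝ) ^ (k - 1)) i.1) -
          (rs f i.2 + t * rs (fun x => (x : ℝ) ^ (k - 1)) i.2))
    (G' := fun i _ => rs (fun x => (x : ℝ) ^ (k - 1)) i.1 -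
          rs (fun x => (x : ℝ) ^ (k - 1)) i.2)
    (a := -T) (b := T) (L := L) (B0 := B0) (K := K) (M := T) (I := r * k + c)
    (by linarith) (by linarith) hB01 hB0L hI hK0
    (by
      intro i _ x _
      have h1 : HasDerivAt (fun t : ℝ => t * rs (fun x => (x : ℝ) ^ (k - 1)) i.1)
          (rs (fun x => (x : ℝ) ^ (k - 1)) i.1) x := by
        simpa using (hasDerivAt_id x).mul_const (rs (fun x => (x : ℝ) ^ (k - 1)) i.1)
      have h2 : HasDerivAt (fun t : ℝ => t * rs (fun x => (x : ℝ) ^ (k - 1)) i.2)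
          (rs (fun x => (x : ℝ) ^ (k - 1)) i.2) x := by
        simpa using (hasDerivAt_id x).mul_const (rs (fun x => (x : ℝ) ^ (k - 1)) i.2)
      exact (h1.const_add (rs f i.1)).sub (h2.const_add (rs f i.2)))
    (by
      intro i _ x _ y _
      simp only [sub_self, abs_zero]
      positivity)
    (by
      intro i hi x _
      have h1 := hpw P hr2 i.1 (Finset.mem_product.1 hi).1
      have h2 := hpw P hr2 i.2 (Finset.mem_product.1 hi).2
      have h3 := abs_sub (rs (fun x => (x : ℝ) ^ (k - 1)) i.1)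
        (rs (fun x => (x : ℝ) ^ (k - 1)) i.2)
      have h4 : 2 * C2 * P ^ (k - 1) ≤ CL * P ^ (k - 1) :=
        mul_le_mul_of_nonneg_right hCL2 (by positivity)
      rw [hLd]
      show |rs (fun x => (x : ℝ) ^ (k - 1)) i.1 - rs (fun x => (x : ℝ) ^ (k - 1)) i.2| ≤ _
      linarith)
    (by
      intro x hx B hB hBL
      have hB1 : 1 ≤ B := hB01.trans hB
      have hBpos : 0 < B := by linarith
      obtain ⟨M', hM'⟩ : ∃ M' : ℝ, M' = (4 * T + 2) * B := ⟨_, rfl⟩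
      have hM'B : B ≤ M' := by
        rw [hM']
        nlinarith
      have hM'0 : 0 ≤ M' := by linarith
      have h1 : cn ((mix (nxt k) 1 q P) ×ˢ (mix (nxt k) 1 q P))
          (fun i => |(rs f i.1 + x * rs (fun x => (x : ℝ) ^ (k - 1)) i.1) -
            (rs f i.2 + x * rs (fun x => (x : ℝ) ^ (k - 1)) i.2)| ≤ T + 2 * B ^ 2 / L ∧
            |rs (fun x => (x : ℝ) ^ (k - 1)) i.1 - rs (fun x => (x : ℝ) ^ (k - 1)) i.2| ≤
              3 * B) ≤
          pairs (mix (nxt k) 1 q P) (fun p => |rs f p.2 - rs f p.1| ≤ M' ∧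
            |rs (fun x => (x : ℝ) ^ (k - 1)) p.2 - rs (fun x => (x : ℝ) ^ (k - 1)) p.1| ≤ M') := by
        rw [pairs_eq_cn]
        refine cn_mono fun w _ hw => ?_
        obtain ⟨ha, hb⟩ := hw
        have h2 : 2 * B ^ 2 / L ≤ 2 * B := by
          rw [div_le_iff₀ hL0]
          nlinarith
        have hxT : |x| ≤ T := abs_le.2 ⟨hx.1, hx.2⟩
        generalize rs f w.1 = a1 at *
        generalize rs f w.2 = a2 at *
        generalize rs (fun x => (x : ℝ) ^ (k - 1)) w.1 = b1 at *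
        generalize rs (fun x => (x : ℝ) ^ (k - 1)) w.2 = b2 at *
        have h3 : |x * (b1 - b2)| ≤ T * (3 * B) := by
          rw [abs_mul]
          exact mul_le_mul hxT hb (abs_nonneg _) (by linarith)
        constructor
        · rw [abs_sub_comm]
          have h4 : a1 - a2 = ((a1 + x * b1) - (a2 + x * b2)) - x * (b1 - b2) := by ring
          rw [h4]
          refine (abs_sub _ _).trans ?_
          rw [hM']
          nlinarith
        · rw [abs_sub_comm, hM']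
          nlinarith
      refine h1.trans ?_
      have h5 := pairs_le_of (W := mix (nxt k) 1 q P)
        (R := fun w w' => |rs f w' - rs f w| ≤ M' ∧
            |rs (fun x => (x : ℝ) ^ (k - 1)) w' - rs (fun x => (x : ℝ) ^ (k - 1)) w| ≤ M')
        (B := C1 * m * M' ^ 2 / P ^ (2 * k - 1)) (by
          intro w hw
          have h6 := hAB P hr1 (rs f w) (rs (fun x => (x : ℝ) ^ (k - 1)) w) M' hM'0
          rw [← hτd, ← hm, max_eq_left (by linarith)] at h6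
          exact h6)
      refine h5.trans (le_of_eq ?_)
      rw [← hm, hKd, hM', hZ]
      ring)
  have hI0 : (((r * k + c : ℕ)) : ℝ) ≤ (k + c) * ((r : ℝ) + 1) := by
    push_cast
    have : (0 : ℝ) ≤ r := Nat.cast_nonneg r
    have hc0 : (0 : ℝ) ≤ c := Nat.cast_nonneg c
    nlinarith [mul_nonneg this hc0]
  have hY0 : 0 ≤ m ^ 2 / P ^ k := by positivity
  have e1 : (T - -T) * K * B0 ^ 2 ≤ (2 * T * C0) * (Z * (m ^ 2 / P ^ k)) := by
    rw [← hKP]
    have h1 : K * B0 ^ 2 ≤ K * (C0 * P ^ (k - 1)) := mul_le_mul_of_nonneg_left hB02 hK0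
    have h2 : (2 * T) * (K * B0 ^ 2) ≤ (2 * T) * (K * (C0 * P ^ (k - 1))) :=
      mul_le_mul_of_nonneg_left h1 (by linarith)
    linarith
  have e2 : 8 * ((r * k + c : ℕ) : ℝ) * K * L * T * (1 + (T - -T)) ≤
      (8 * (k + c) * CL * T * (1 + 2 * T)) * ((r : ℝ) + 1) * (Z * (m ^ 2 / P ^ k)) := by
    rw [← hKP, hLd]
    have h1 : 0 ≤ 8 * K * (CL * P ^ (k - 1)) * T * (1 + 2 * T) := by positivity
    have h2 := mul_le_mul_of_nonneg_right hI0 h1
    calc 8 * ((r * k + c : ℕ) : ℝ) * K * (CL * P ^ (k - 1)) * T * (1 + (T - -T))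
        = ((r * k + c : ℕ) : ℝ) * (8 * K * (CL * P ^ (k - 1)) * T * (1 + 2 * T)) := by ring
      _ ≤ (k + c) * ((r : ℝ) + 1) * (8 * K * (CL * P ^ (k - 1)) * T * (1 + 2 * T)) := h2
      _ = _ := by ring
  have e3 : (2 * T * C0) * (Z * (m ^ 2 / P ^ k)) ≤
      (2 * T * C0) * ((r : ℝ) + 1) * (Z * (m ^ 2 / P ^ k)) := by
    have h1 : 0 ≤ (2 * T * C0) * (Z * (m ^ 2 / P ^ k)) := by positivity
    have h2 : (0 : ℝ) ≤ r := Nat.cast_nonneg r
    nlinarith [mul_nonneg h2 h1]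
  rw [← hm]
  calc _ ≤ _ := key
    _ ≤ (2 * T * C0) * ((r : ℝ) + 1) * (Z * (m ^ 2 / P ^ k)) +
        (8 * (k + c) * CL * T * (1 + 2 * T)) * ((r : ℝ) + 1) * (Z * (m ^ 2 / P ^ k)) := by
        linarith
    _ = C3 * ((r : ℝ) + 1) * (m ^ 2 / P ^ k) := by
        rw [hC3]
        ring
    _ ≤ _ := mul_le_mul_of_nonneg_right hlin hY0

theorem dimPq {k q : ℕ} (hk : 2 ≤ k) (hq : (1 - 1 / (k : ℝ)) ^ q ≤ 1 / 2) {f : ℕ → ℝ} (hf : Good k f) {ε : ℝ} (hε : 0 < ε)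
    (hε1 : ε ≤ 1) :
    dimH {t : ℝ | ∃ M : ℝ, ∃ᶠ r : ℕ in atTop,
      (XX r) ^ ε * ((mix (nxt k) 1 q (XX r)).card : ℝ) ^ 2 / (XX r) ^ k <
      pairs (mix (nxt k) 1 q (XX r)) (fun p =>
        |(rs f p.1 + t * rs (fun x => (x : ℝ) ^ (k - 1)) p.1) -
          (rs f p.2 + t * rs (fun x => (x : ℝ) ^ (k - 1)) p.2)| ≤ M)} ≤
      ENNReal.ofReal (1 - ε / (4 * k)) := by
  have hkR : (2 : ℝ) ≤ k := by exact_mod_cast hk
  obtain ⟨E, hE⟩ : ∃ E : ℕ → Set ℝ, E = fun n : ℕ =>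
      {t : ℝ | t ∈ Set.Icc (-((n : ℝ) + 1)) ((n : ℝ) + 1) ∧ ∃ᶠ r : ℕ in atTop,
      (XX r) ^ (2 * (ε / 2)) * (((mix (nxt k) 1 q (XX r)).card : ℝ) ^ 2 / (XX r) ^ k) <
      cn ((mix (nxt k) 1 q (XX r)) ×ˢ (mix (nxt k) 1 q (XX r))) (fun i =>
        |(rs f i.1 + t * rs (fun x => (x : ℝ) ^ (k - 1)) i.1) -
          (rs f i.2 + t * rs (fun x => (x : ℝ) ^ (k - 1)) i.2)| ≤ (n : ℝ))} := ⟨_, rfl⟩
  have h1 : ∀ n : ℕ, dimH (E n) ≤ ENNReal.ofReal (1 - ε / (4 * k)) := by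
    intro n
    have hn : (0 : ℝ) ≤ n := Nat.cast_nonneg n
    obtain ⟨C2, hC2, P2, hP2, hpw⟩ := mix_pw_bound hk (k - 1) q
    have h2 := dim_of_avg (ι := List ℕ × List ℕ)
      (S := fun r => (mix (nxt k) 1 q (XX r)) ×ˢ (mix (nxt k) 1 q (XX r)))
      (G := fun i t => (rs f i.1 + t * rs (fun x => (x : ℝ) ^ (k - 1)) i.1) -
          (rs f i.2 + t * rs (fun x => (x : ℝ) ^ (k - 1)) i.2))
      (a := -((n : ℝ) + 1)) (b := (n : ℝ) + 1) (M := (n : ℝ)) (δ := ε / 2) (Λ := (k : ℝ))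
      (Y := fun r => ((mix (nxt k) 1 q (XX r)).card : ℝ) ^ 2 / (XX r) ^ k)
      (by linarith) (by linarith) (by linarith)
      (by
        filter_upwards [card_ev hk q] with r hr
        have := XX_pos r
        positivity)
      (by
        intro r i _
        exact Continuous.continuousOn (by fun_prop))
      (by
        filter_upwards [XX_tendsto.eventually_ge_atTop P2,
          XX_tendsto.eventually_ge_atTop (2 * C2)] with r hr1 hr2 i hi x _ y _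
        have h3 := hpw (XX r) hr1 i.1 (Finset.mem_product.1 hi).1
        have h4 := hpw (XX r) hr1 i.2 (Finset.mem_product.1 hi).2
        have hP := one_le_XX r
        have hP0 := XX_pos r
        rw [Real.rpow_natCast]
        generalize XX r = P at *
        generalize rs f i.1 = a1 at *
        generalize rs f i.2 = a2 at *
        generalize rs (fun x => (x : ℝ) ^ (k - 1)) i.1 = b1 at *
        generalize rs (fun x => (x : ℝ) ^ (k - 1)) i.2 = b2 at *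
        have h5 : (a1 + x * b1 - (a2 + x * b2)) - (a1 + y * b1 - (a2 + y * b2)) =
            (b1 - b2) * (x - y) := by ring
        show |(a1 + x * b1 - (a2 + x * b2)) - (a1 + y * b1 - (a2 + y * b2))| ≤ _
        rw [h5, abs_mul]
        refine mul_le_mul_of_nonneg_right ?_ (abs_nonneg _)
        have h6 := abs_sub b1 b2
        have h7 : P ^ k = P * P ^ (k - 1) := by
          rw [← pow_succ']
          congr 1
          omega
        have h8 : 2 * C2 * P ^ (k - 1) ≤ P * P ^ (k - 1) :=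
          mul_le_mul_of_nonneg_right hr2 (by positivity)
        rw [h7]
        linarith)
      (by
        exact avg_bound hk hq hf ((n : ℝ) + 1) (by linarith) (by positivity))
    have e1 : 1 - ε / 2 / (2 * (k : ℝ)) = 1 - ε / (4 * k) := by
      have : (k : ℝ) ≠ 0 := by linarith
      field_simp
      ring
    rw [e1] at h2
    rw [hE]
    exact h2
  have h2 : {t : ℝ | ∃ M : ℝ, ∃ᶠ r : ℕ in atTop,
      (XX r) ^ ε * ((mix (nxt k) 1 q (XX r)).card : ℝ) ^ 2 / (XX r) ^ k <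
      pairs (mix (nxt k) 1 q (XX r)) (fun p =>
        |(rs f p.1 + t * rs (fun x => (x : ℝ) ^ (k - 1)) p.1) -
          (rs f p.2 + t * rs (fun x => (x : ℝ) ^ (k - 1)) p.2)| ≤ M)} ⊆ ⋃ n, E n := by
    rintro t ⟨M, hM⟩
    obtain ⟨n, hn⟩ := exists_nat_ge (max |t| M)
    have hn1 : |t| ≤ n := (le_max_left _ _).trans hn
    have hn2 : M ≤ n := (le_max_right _ _).trans hn
    have h3 := abs_le.1 hn1
    rw [Set.mem_iUnion]
    refine ⟨n, ?_⟩
    rw [hE]
    refine ⟨⟨by linarith [h3.1], by linarith [h3.2]⟩, ?_⟩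
    refine hM.mono fun r hr => ?_
    rw [show 2 * (ε / 2) = ε by ring, ← mul_div_assoc]
    refine hr.trans_le ?_
    rw [pairs_eq_cn]
    exact cn_mono fun w _ hw => hw.trans hn2
  refine (dimH_mono h2).trans ?_
  rw [dimH_iUnion]
  exact iSup_le h1

end VWar
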